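import Mathlib
import Pool.Agent.V11134.ShorChain

/-!
# MP_97c21f_co: the linear pairs whose row sums are m^m

`(P, Q)` is a pair of polynomials in two variables over `ℂ` (variable `0` is `m`, variable `1` is
`n`). The only admissible pair of polynomials of total degree at most `1` is Shor's pair
`P = m`, `Q = m + n`; already the first seven row sums force it.

Proof. Let `M k m = ∑ n^k S(m, n + 1)`. For a linear pair the row sums determine
`w^k M k m` (`w` the coefficient of `n` in `P(m, n) + Q(m, n + 1)`, which is nonzero) as explicit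
polynomials in the parameters, and `S(1, ·)`, `S(2, ·)`, `S(3, ·)` have supports `{1}`, `{1, 2}`,
`{1, 2, 3}`. This gives four equations in three unknowns; explicit cofactors
(`Pool.Agent.V11134.ShorCert`) show that the unknowns vanish.
-/

namespace Pool.Agent.Results.MP_97c21f_co.LinearPairs

open Finset

/-- The array `S = S_{P,Q}`: `S(0,0) = 1`, `S(0,n) = 0 = S(m,0)` for `m, n ≥ 1`, and
`S(m+1,n) = P(m,n) S(m,n) + Q(m,n) S(m,n-1)` for `m ≥ 0`, `n ≥ 1`. -/
noncomputable def arr (P Q : MvPolynomial (Fin 2) ℂ) : ℕ → ℕ → ℂ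
  | 0, 0 => 1
  | 0, _ + 1 => 0
  | _ + 1, 0 => 0
  | m + 1, n + 1 =>
      MvPolynomial.eval ![(m : ℂ), ((n + 1 : ℕ) : ℂ)] P * arr P Q m (n + 1)
        + MvPolynomial.eval ![(m : ℂ), ((n + 1 : ℕ) : ℂ)] Q * arr P Q m n

/-- The `m`-th row sum `∑_{n=1}^m S(m,n)`. -/
noncomputable def rowSum (P Q : MvPolynomial (Fin 2) ℂ) (m : ℕ) : ℂ := ∑ n ∈ Icc 1 m, arr P Q m n

/-- `(P, Q)` is admissible when the `m`-th row sum is `m^m` for all `m ≥ 1`. -/
def Admissible (P Q : MvPolynomial (Fin 2) ℂ) : Prop := ∀ m : ℕ, 1 ≤ m → rowSum P Q m = (m : ℂ) ^ m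

/-! ### Generalities -/

section general

variable (P Q : MvPolynomial (Fin 2) ℂ)

theorem arr_zero_right {m : ℕ} (hm : 1 ≤ m) : arr P Q m 0 = 0 := by
  obtain ⟨k, rfl⟩ : ∃ k, m = k + 1 := ⟨m - 1, by omega⟩
  simp [arr]

theorem arr_succ (m n : ℕ) : arr P Q (m + 1) (n + 1) =
    MvPolynomial.eval ![(m : ℂ), ((n + 1 : ℕ) : ℂ)] P * arr P Q m (n + 1)
      + MvPolynomial.eval ![(m : ℂ), ((n + 1 : ℕ) : ℂ)] Q * arr P Q m n := by
  rw [arr]

theorem arr_support : ∀ {m n : ℕ}, m < n → arr P Q m n = 0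
  | 0, n + 1, _ => by simp [arr]
  | m + 1, n + 1, h => by
      rw [arr_succ, arr_support (show m < n + 1 by omega), arr_support (show m < n by omega)]
      ring

theorem rowSum_eq (m : ℕ) : rowSum P Q m = ∑ n ∈ range m, arr P Q m (n + 1) := by
  unfold rowSum
  refine Finset.sum_bij' (fun n _ => n - 1) (fun n _ => n + 1) ?_ ?_ ?_ ?_ ?_
  · intro n hn; simp at hn ⊢; omega
  · intro n hn; simp at hn ⊢; omega
  · intro n hn; simp at hn ⊢; omega
  · intro n hn; simp
  · intro n hn
    simp at hn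
    rw [show n - 1 + 1 = n by omega]

/-- One step of the recurrence, tested against `g`. -/
theorem step (g : ℕ → ℂ) {m : ℕ} (hm : 1 ≤ m) :
    ∑ n ∈ range (m + 1), g n * arr P Q (m + 1) (n + 1) =
      ∑ n ∈ range m, (g n * MvPolynomial.eval ![(m : ℂ), ((n + 1 : ℕ) : ℂ)] P
        + g (n + 1) * MvPolynomial.eval ![(m : ℂ), ((n + 1 + 1 : ℕ) : ℂ)] Q)
          * arr P Q m (n + 1) := by
  have h1 : ∀ n, g n * arr P Q (m + 1) (n + 1) =
      g n * MvPolynomial.eval ![(m : ℂ), ((n + 1 : ℕ) : ℂ)] P * arr P Q m (n + 1)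
        + g n * MvPolynomial.eval ![(m : ℂ), ((n + 1 : ℕ) : ℂ)] Q * arr P Q m n := by
    intro n
    rw [arr_succ]
    ring
  simp only [h1]
  rw [Finset.sum_add_distrib, Finset.sum_range_succ, arr_support P Q (show m < m + 1 by omega),
    Finset.sum_range_succ' (fun n => g n * MvPolynomial.eval ![(m : ℂ), ((n + 1 : ℕ) : ℂ)] Q
      * arr P Q m n), arr_zero_right P Q hm]
  simp only [mul_zero, add_zero]
  rw [← Finset.sum_add_distrib]
  refine Finset.sum_congr rfl fun n _ => ?_
  ring

end general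

/-! ### Polynomials of total degree at most one -/

theorem linear_form (P : MvPolynomial (Fin 2) ℂ) (hP : P.totalDegree ≤ 1) :
    ∃ a b c : ℂ, P = MvPolynomial.C a + MvPolynomial.C b * MvPolynomial.X 0
      + MvPolynomial.C c * MvPolynomial.X 1 := by
  refine ⟨P.coeff 0, P.coeff (Finsupp.single 0 1), P.coeff (Finsupp.single 1 1), ?_⟩
  ext s
  simp only [MvPolynomial.coeff_add, MvPolynomial.coeff_C_mul, MvPolynomial.coeff_C,
    MvPolynomial.coeff_X]
  have hs : s = Finsupp.single 0 (s 0) + Finsupp.single 1 (s 1) := by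
    ext i
    fin_cases i <;> simp
  by_cases h0 : s = 0
  · subst h0
    simp
  · by_cases h1 : s = Finsupp.single 0 1
    · subst h1
      have : (Finsupp.single (1 : Fin 2) 1 : Fin 2 →₀ ℕ) ≠ Finsupp.single 0 1 := by
        intro h
        have := DFunLike.congr_fun h 0
        simp at this
      simp [this, eq_comm]
    · by_cases h2 : s = Finsupp.single 1 1
      · subst h2
        have : (Finsupp.single (0 : Fin 2) 1 : Fin 2 →₀ ℕ) ≠ Finsupp.single 1 1 := by
          intro h
          have := DFunLike.congr_fun h 0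
          simp at this
        simp [this, eq_comm]
      · rw [if_neg (Ne.symm h0), if_neg (Ne.symm h1), if_neg (Ne.symm h2)]
        simp only [mul_zero, add_zero]
        apply MvPolynomial.coeff_eq_zero_of_totalDegree_lt
        refine lt_of_le_of_lt hP ?_
        have hsum : ∑ i ∈ s.support, s i = s 0 + s 1 := by
          rw [Finset.sum_subset (Finset.subset_univ _)]
          · simp [Fin.sum_univ_two]
          · intro x _ hx
            simpa using hx
        rw [hsum]
        by_contra hcon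
        have h3 : s 0 + s 1 ≤ 1 := by omega
        have : (s 0 = 0 ∧ s 1 = 0) ∨ (s 0 = 1 ∧ s 1 = 0) ∨ (s 0 = 0 ∧ s 1 = 1) := by omega
        rcases this with ⟨x, y⟩ | ⟨x, y⟩ | ⟨x, y⟩
        · apply h0; rw [hs, x, y]; simp
        · apply h1; rw [hs, x, y]; simp
        · apply h2; rw [hs, x, y]; simp

/-! ### Seven row sums determine a linear pair -/

theorem unique (P Q : MvPolynomial (Fin 2) ℂ) (hP : P.totalDegree ≤ 1) (hQ : Q.totalDegree ≤ 1)
    (h : ∀ m : ℕ, 1 ≤ m → m ≤ 7 → rowSum P Q m = (m : ℂ) ^ m) :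
    P = MvPolynomial.X 0 ∧ Q = MvPolynomial.X 0 + MvPolynomial.X 1 := by
  obtain ⟨a, b, c, rfl⟩ := linear_form P hP
  obtain ⟨d, e, f, rfl⟩ := linear_form Q hQ
  set P := MvPolynomial.C a + MvPolynomial.C b * MvPolynomial.X 0
      + MvPolynomial.C c * MvPolynomial.X (1 : Fin 2) with hPdef
  set Q := MvPolynomial.C d + MvPolynomial.C e * MvPolynomial.X 0
      + MvPolynomial.C f * MvPolynomial.X (1 : Fin 2) with hQdef
  have evP : ∀ m n : ℕ, MvPolynomial.eval ![(m : ℂ), (n : ℂ)] P = a + b * m + c * n := by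
    intro m n
    simp [hPdef]
  have evQ : ∀ m n : ℕ, MvPolynomial.eval ![(m : ℂ), (n : ℂ)] Q = d + e * m + f * n := by
    intro m n
    simp [hQdef]
  set M : ℕ → ℕ → ℂ := fun k m => ∑ n ∈ range m, (n : ℂ) ^ k * arr P Q m (n + 1) with hM
  have h0 : ∀ m : ℕ, 1 ≤ m → m ≤ 7 → M 0 m = (m : ℂ) ^ m := by
    intro m h1 h7
    rw [← h m h1 h7, rowSum_eq]
    simp [hM]
  have a11 : arr P Q 1 1 = d + f := by
    have := arr_succ P Q 0 0
    rw [evP, evQ] at this
    simp only [zero_add] at this
    rw [this]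
    simp [arr]
  have c1 : d + f = 1 := by
    have := h0 1 (by norm_num) (by norm_num)
    rw [← a11]
    simpa [hM] using this
  have c2 : a + b + c + d + e + 2 * f = 4 := by
    have h2 := h0 2 (by norm_num) (by norm_num)
    have hs := step P Q (fun _ => 1) (m := 1) le_rfl
    have h3 : M 0 2 = ∑ n ∈ range (1 + 1), (fun _ => (1 : ℂ)) n * arr P Q (1 + 1) (n + 1) := by
      simp [hM]
    rw [h3, hs] at h2
    simp only [Finset.sum_range_one, evP, evQ] at h2
    rw [a11, c1] at h2
    push_cast at h2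
    norm_num at h2
    linear_combination h2
  have key := Pool.Agent.V11134.ShorChain.vanish (b + e - 2) (c + f - 1) (e - 1) (f - 1) M
    ?_ ?_ ?_ ?_ h0 ?_ ?_ ?_ ?_ ?_ ?_
  · obtain ⟨k1, k2, k3, k4⟩ := key
    have he : e = 1 := by linear_combination k3
    have hf : f = 1 := by linear_combination k4
    have hb : b = 1 := by linear_combination k1 - k3
    have hc : c = 0 := by linear_combination k2 - k4
    have hd : d = 0 := by linear_combination c1 - k4
    have ha : a = 0 := by linear_combination c2 - k1 - k2 - c1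
    refine ⟨?_, ?_⟩
    · rw [hPdef, ha, hb, hc]; simp
    · rw [hQdef, hd, he, hf]; simp
  · intro m hm
    have hs := step P Q (fun n => (n : ℂ) ^ 0) hm
    have hl : M 0 (m + 1) = ∑ n ∈ range (m + 1), (fun n : ℕ => (n : ℂ) ^ 0) n
        * arr P Q (m + 1) (n + 1) := by simp [hM]
    rw [hl, hs]
    simp only [hM, Finset.mul_sum, ← Finset.sum_add_distrib]
    refine Finset.sum_congr rfl fun n _ => ?_
    rw [evP, evQ]
    push_cast
    linear_combination (arr P Q m (n + 1)) * c2
  · intro m hm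
    have hs := step P Q (fun n => (n : ℂ) ^ 1) hm
    have hl : M 1 (m + 1) = ∑ n ∈ range (m + 1), (fun n : ℕ => (n : ℂ) ^ 1) n
        * arr P Q (m + 1) (n + 1) := by simp [hM]
    rw [hl, hs]
    simp only [hM, Finset.mul_sum, ← Finset.sum_add_distrib]
    refine Finset.sum_congr rfl fun n _ => ?_
    rw [evP, evQ]
    push_cast
    linear_combination (n * arr P Q m (n + 1)) * c2 + (arr P Q m (n + 1)) * c1
  · intro m hm
    have hs := step P Q (fun n => (n : ℂ) ^ 2) hm
    have hl : M 2 (m + 1) = ∑ n ∈ range (m + 1), (fun n : ℕ => (n : ℂ) ^ 2) n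
        * arr P Q (m + 1) (n + 1) := by simp [hM]
    rw [hl, hs]
    simp only [hM, Finset.mul_sum, ← Finset.sum_add_distrib]
    refine Finset.sum_congr rfl fun n _ => ?_
    rw [evP, evQ]
    push_cast
    linear_combination (n ^ 2 * arr P Q m (n + 1)) * c2
      + ((2 * n + 1) * arr P Q m (n + 1)) * c1
  · intro m hm
    have hs := step P Q (fun n => (n : ℂ) ^ 3) hm
    have hl : M 3 (m + 1) = ∑ n ∈ range (m + 1), (fun n : ℕ => (n : ℂ) ^ 3) n
        * arr P Q (m + 1) (n + 1) := by simp [hM]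
    rw [hl, hs]
    simp only [hM, Finset.mul_sum, ← Finset.sum_add_distrib]
    refine Finset.sum_congr rfl fun n _ => ?_
    rw [evP, evQ]
    push_cast
    linear_combination (n ^ 3 * arr P Q m (n + 1)) * c2
      + ((3 * n ^ 2 + 3 * n + 1) * arr P Q m (n + 1)) * c1
  · simp [hM]
  · simp [hM]
  · simp [hM, Finset.sum_range_succ]
  · simp [hM, Finset.sum_range_succ]
  · simp only [hM, Finset.sum_range_succ, Finset.sum_range_zero]
    push_cast
    ring
  · simp only [hM, Finset.sum_range_succ, Finset.sum_range_zero]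
    push_cast
    ring

/-! ### Shor's pair is admissible -/

/-- `H N k i = ∑_j C(k,j) i(i+1)…(i+j-1) N^(k-j)`. -/
def H (N : ℂ) : ℕ → ℕ → ℂ
  | 0, _ => 1
  | k + 1, i => N * H N k i + i * H N k (i + 1)

theorem H_zero (N : ℂ) (k : ℕ) : H N k 0 = N ^ k := by
  induction k with
  | zero => simp [H]
  | succ k ih => rw [H, ih]; push_cast; ring

theorem H_rel (N : ℂ) (k i : ℕ) :
    N * H N k i + (i + k + 1) * H N k (i + 1) =
      N * H N k (i + 1) + (i + 1) * H N k (i + 2) := by
  induction k generalizing i with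
  | zero => simp only [H]; push_cast; ring
  | succ k ih =>
    have e1 := ih i
    have e2 := ih (i + 1)
    simp only [H]
    push_cast at e1 e2 ⊢
    linear_combination N * e1 + (i + 1) * e2

theorem shor_arr (m n : ℕ) :
    arr (MvPolynomial.X 0) (MvPolynomial.X 0 + MvPolynomial.X 1) (m + 1) (n + 1) =
      m * arr (MvPolynomial.X 0) (MvPolynomial.X 0 + MvPolynomial.X 1) m (n + 1)
        + (m + n + 1) * arr (MvPolynomial.X 0) (MvPolynomial.X 0 + MvPolynomial.X 1) m n := by
  rw [arr_succ]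
  simp
  left
  ring

theorem shor_inv (N : ℕ) : ∀ m : ℕ, m ≤ N →
    ∑ n ∈ range (m + 1), arr (MvPolynomial.X 0) (MvPolynomial.X 0 + MvPolynomial.X 1) m n
      * H N (N - m) (m + n) = (N : ℂ) ^ N := by
  intro m
  induction m with
  | zero => intro _; simp [arr, H_zero]
  | succ m ih =>
    intro hm
    have ih := ih (by omega)
    rw [← ih]
    set S := arr (MvPolynomial.X 0) (MvPolynomial.X 0 + MvPolynomial.X 1) with hS
    obtain ⟨k, hk⟩ : ∃ k, N = m + k + 1 := ⟨N - m - 1, by omega⟩
    have hk1 : N - (m + 1) = k := by omega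
    have hk2 : N - m = k + 1 := by omega
    rw [hk1, hk2]
    have hrel : ∀ n : ℕ, H N (k + 1) (m + n) =
        m * H N k (m + 1 + n) + (m + n + 1) * H N k (m + 1 + (n + 1)) := by
      intro n
      have h1 := H_rel N k (m + n)
      have hN : (N : ℂ) = m + k + 1 := by rw [hk]; push_cast; ring
      rw [H]
      rw [show m + 1 + n = m + n + 1 by ring, show m + 1 + (n + 1) = m + n + 2 by ring]
      push_cast at h1 ⊢
      linear_combination h1 + H N k (m + n + 1) * hN
    simp only [hrel]
    rw [Finset.sum_range_succ']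
    have z1 : S (m + 1) 0 = 0 := by rw [hS]; simp [arr]
    rw [z1, zero_mul, add_zero]
    have h2 : ∀ n, S (m + 1) (n + 1) * H N k (m + 1 + (n + 1)) =
        m * S m (n + 1) * H N k (m + 1 + (n + 1)) + (m + n + 1) * S m n
          * H N k (m + 1 + (n + 1)) := by
      intro n
      rw [hS, shor_arr]
      ring
    simp only [h2]
    rw [Finset.sum_add_distrib]
    have h3 : ∑ n ∈ range (m + 1), (m : ℂ) * S m (n + 1) * H N k (m + 1 + (n + 1)) =
        ∑ n ∈ range (m + 1), (m : ℂ) * S m n * H N k (m + 1 + n) := by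
      have h4 := Finset.sum_range_succ' (fun n => (m : ℂ) * S m n * H N k (m + 1 + n)) (m + 1)
      have h5 := Finset.sum_range_succ (fun n => (m : ℂ) * S m n * H N k (m + 1 + n)) (m + 1)
      have z2 : S m (m + 1) = 0 := by rw [hS]; exact arr_support _ _ (by omega)
      have z3 : (m : ℂ) * S m 0 = 0 := by
        rcases Nat.eq_zero_or_pos m with h | h
        · subst h; simp
        · rw [hS, arr_zero_right _ _ h, mul_zero]
      rw [z3, zero_mul, add_zero] at h4
      rw [z2, mul_zero, zero_mul, add_zero] at h5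
      rw [← h4, h5]
    rw [h3, ← Finset.sum_add_distrib]
    refine Finset.sum_congr rfl fun n _ => ?_
    ring

theorem shor_admissible :
    Admissible (MvPolynomial.X 0) (MvPolynomial.X 0 + MvPolynomial.X 1) := by
  intro N hN
  have h := shor_inv N N le_rfl
  rw [Finset.sum_range_succ', arr_zero_right _ _ hN] at h
  rw [rowSum_eq, ← h]
  simp [H]

/-- **MP_97c21f_co, linear pairs.** A pair of polynomials of total degree at most `1` is admissible
if and only if it is Shor's pair `P = m`, `Q = m + n`; moreover the first seven row sums already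
force this pair. -/
theorem result : ∀ P Q : MvPolynomial (Fin 2) ℂ, P.totalDegree ≤ 1 → Q.totalDegree ≤ 1 →
    (Admissible P Q ↔ P = MvPolynomial.X 0 ∧ Q = MvPolynomial.X 0 + MvPolynomial.X 1) ∧
    ((∀ m : ℕ, 1 ≤ m → m ≤ 7 → rowSum P Q m = (m : ℂ) ^ m) →
      P = MvPolynomial.X 0 ∧ Q = MvPolynomial.X 0 + MvPolynomial.X 1) := by
  intro P Q hP hQ
  refine ⟨⟨fun h => unique P Q hP hQ fun m h1 _ => h m h1, ?_⟩, unique P Q hP hQ⟩
  rintro ⟨rfl, rfl⟩
  exact shor_admissible

end Pool.Agent.Results.MP_97c21f_co.LinearPairs
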